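import Pool.Agent.Leo4.Stmts

/-! FLR: the floor of the Hilbert modular group of `ℚ(√5)` is at least `1/2`. -/

set_option autoImplicit false

namespace Pool.Agent.Leo4.H11

open Pool.Agent.Leo4

/-- the conclusion -/
def Q (z1 z2 y1 y2 : ℝ) : Prop :=
  ∃ x : O, ((z1 + e1 x) ^ 2 + y1 ^ 2) * ((z2 + e2 x) ^ 2 + y2 ^ 2) < 1

theorem g2 : Real.goldenRatio ^ 2 = Real.goldenRatio + 1 := Real.goldenRatio_sq

theorem c2 : Real.goldenConj ^ 2 = Real.goldenConj + 1 := Real.goldenConj_sq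

theorem gc : Real.goldenRatio * Real.goldenConj = -1 := Real.goldenRatio_mul_goldenConj

theorem g_ne : Real.goldenRatio ≠ 0 := Real.goldenRatio_ne_zero

theorem c_ne : Real.goldenConj ≠ 0 := Real.goldenConj_ne_zero

theorem div_unit (n : ℤ) : ∀ x' : O, ∃ x : O,
    e1 x = (Real.goldenRatio ^ n)⁻¹ * e1 x' ∧ e2 x = (Real.goldenConj ^ n)⁻¹ * e2 x' := by
  have hg : Real.goldenRatio⁻¹ = Real.goldenRatio - 1 := by
    rw [inv_eq_iff_eq_inv, eq_comm, inv_eq_one_div, div_eq_iff]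
    · linear_combination -g2
    · have := Real.one_lt_goldenRatio
      linarith
  have hc : Real.goldenConj⁻¹ = Real.goldenConj - 1 := by
    rw [inv_eq_iff_eq_inv, eq_comm, inv_eq_one_div, div_eq_iff]
    · linear_combination -c2
    · have := Real.goldenConj_neg
      linarith
  induction n using Int.induction_on with
  | zero => exact fun x' => ⟨x', by simp, by simp⟩
  | succ n ih =>
    intro x'
    obtain ⟨y, hy1, hy2⟩ := ih x'
    refine ⟨⟨y.im - y.re, y.re⟩, ?_, ?_⟩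
    · rw [zpow_add_one₀ g_ne, mul_inv, mul_right_comm, ← hy1, hg]
      simp only [e1, ev]
      push_cast
      linear_combination (-(y.im : ℝ)) * g2
    · rw [zpow_add_one₀ c_ne, mul_inv, mul_right_comm, ← hy2, hc]
      simp only [e2, ev]
      push_cast
      linear_combination (-(y.im : ℝ)) * c2
  | pred n ih =>
    intro x'
    obtain ⟨y, hy1, hy2⟩ := ih x'
    refine ⟨⟨y.im, y.re + y.im⟩, ?_, ?_⟩
    · rw [zpow_sub_one₀ g_ne, mul_inv, inv_inv, mul_right_comm, ← hy1]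
      simp only [e1, ev]
      push_cast
      linear_combination (-(y.im : ℝ)) * g2
    · rw [zpow_sub_one₀ c_ne, mul_inv, inv_inv, mul_right_comm, ← hy2]
      simp only [e2, ev]
      push_cast
      linear_combination (-(y.im : ℝ)) * c2

theorem act (n : ℤ) {z1 z2 y1 y2 : ℝ}
    (h : Q (Real.goldenRatio ^ n * z1) (Real.goldenConj ^ n * z2) (Real.goldenRatio ^ n * y1)
      (Real.goldenConj ^ n * y2)) : Q z1 z2 y1 y2 := by
  obtain ⟨x', hx'⟩ := h
  obtain ⟨x, h1, h2⟩ := div_unit n x'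
  refine ⟨x, ?_⟩
  have hgn : Real.goldenRatio ^ n ≠ 0 := zpow_ne_zero _ g_ne
  have hcn : Real.goldenConj ^ n ≠ 0 := zpow_ne_zero _ c_ne
  have e1' : e1 x' = Real.goldenRatio ^ n * e1 x := by
    rw [h1, mul_inv_cancel_left₀ hgn]
  have e2' : e2 x' = Real.goldenConj ^ n * e2 x := by
    rw [h2, mul_inv_cancel_left₀ hcn]
  rw [e1', e2'] at hx'
  have h3 : (Real.goldenRatio ^ n * Real.goldenConj ^ n) ^ 2 = 1 := by
    rw [← mul_zpow, gc]
    rcases Int.even_or_odd n with h | h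
    · rw [h.neg_one_zpow]
      norm_num
    · rw [h.neg_one_zpow]
      norm_num
  calc _ = (Real.goldenRatio ^ n * Real.goldenConj ^ n) ^ 2 *
      (((z1 + e1 x) ^ 2 + y1 ^ 2) * ((z2 + e2 x) ^ 2 + y2 ^ 2)) := by rw [h3, one_mul]
    _ = ((Real.goldenRatio ^ n * z1 + Real.goldenRatio ^ n * e1 x) ^ 2 +
        (Real.goldenRatio ^ n * y1) ^ 2) * ((Real.goldenConj ^ n * z2 +
        Real.goldenConj ^ n * e2 x) ^ 2 + (Real.goldenConj ^ n * y2) ^ 2) := by ring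
    _ < 1 := hx'

theorem swap {z1 z2 y1 y2 : ℝ} (h : Q z2 z1 y2 y1) : Q z1 z2 y1 y2 := by
  obtain ⟨x, hx⟩ := h
  have h1 : e1 (⟨x.re + x.im, -x.im⟩ : O) = e2 x := by
    simp only [e1, e2, ev]
    push_cast
    linear_combination (-(x.im : ℝ)) * Real.goldenRatio_add_goldenConj
  have h2 : e2 (⟨x.re + x.im, -x.im⟩ : O) = e1 x := by
    simp only [e1, e2, ev]
    push_cast
    linear_combination (-(x.im : ℝ)) * Real.goldenRatio_add_goldenConj
  refine ⟨⟨x.re + x.im, -x.im⟩, ?_⟩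
  rw [h1, h2, mul_comm]
  exact hx

theorem corner (al be : ℝ) : ∃ i j : ℤ, -1 ≤ 2 * (al - i) + (be - j) ∧
    2 * (al - i) + (be - j) ≤ 1 ∧ -(3 / 2) ≤ (al - i) - 2 * (be - j) ∧
    (al - i) - 2 * (be - j) ≤ 3 / 2 ∧ -(3 / 2) ≤ (al - i) + 3 * (be - j) ∧
    (al - i) + 3 * (be - j) ≤ 3 / 2 := by
  have key : ∀ u v : ℝ, 0 ≤ u → u ≤ 1 → 0 ≤ v → v ≤ 1 → ∃ i j : ℤ,
      -1 ≤ 2 * (u - i) + (v - j) ∧
      2 * (u - i) + (v - j) ≤ 1 ∧ -(3 / 2) ≤ (u - i) - 2 * (v - j) ∧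
      (u - i) - 2 * (v - j) ≤ 3 / 2 ∧ -(3 / 2) ≤ (u - i) + 3 * (v - j) ∧
      (u - i) + 3 * (v - j) ≤ 3 / 2 := by
    intro u v hu0 hu1 hv0 hv1
    rcases le_total (u - 2 * v) (-(1 / 2)) with h1 | h1
    · rcases le_total (3 / 2) (u + 3 * v) with h2 | h2
      · rcases le_total (2 * u + v) 2 with h3 | h3
        · refine ⟨0, 1, ?_, ?_, ?_, ?_, ?_, ?_⟩ <;> push_cast <;> linarith
        · refine ⟨1, 1, ?_, ?_, ?_, ?_, ?_, ?_⟩ <;> push_cast <;> linarith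
      · refine ⟨0, 0, ?_, ?_, ?_, ?_, ?_, ?_⟩ <;> push_cast <;> linarith
    · rcases le_total (2 * u + v) 1 with h2 | h2
      · refine ⟨0, 0, ?_, ?_, ?_, ?_, ?_, ?_⟩ <;> push_cast <;> linarith
      · rcases le_total (u + 3 * v) (5 / 2) with h3 | h3
        · refine ⟨1, 0, ?_, ?_, ?_, ?_, ?_, ?_⟩ <;> push_cast <;> linarith
        · refine ⟨1, 1, ?_, ?_, ?_, ?_, ?_, ?_⟩ <;> push_cast <;> linarith
  obtain ⟨i, j, h⟩ := key (Int.fract al) (Int.fract be) (Int.fract_nonneg _)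
    (Int.fract_lt_one _).le (Int.fract_nonneg _) (Int.fract_lt_one _).le
  refine ⟨⌊al⌋ + i, ⌊be⌋ + j, ?_⟩
  have ha : al - ((⌊al⌋ + i : ℤ) : ℝ) = Int.fract al - i := by
    rw [Int.fract]
    push_cast
    ring
  have hb : be - ((⌊be⌋ + j : ℤ) : ℝ) = Int.fract be - j := by
    rw [Int.fract]
    push_cast
    ring
  rw [ha, hb]
  exact h

theorem ineq (p q : ℝ) (h1 : -1 ≤ p) (h2 : p ≤ 1) (h3 : -(3 / 2) ≤ q) (h4 : q ≤ 3 / 2)
    (h5 : -(3 / 2) ≤ p - q) (h6 : p - q ≤ 3 / 2) :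
    ((p ^ 2 + p * q - q ^ 2) / 5) ^ 2 + ((3 * p ^ 2 - 2 * p * q + 2 * q ^ 2) / 5) / 2 ≤ 3 / 4 ∧
    ((p ^ 2 + p * q - q ^ 2) / 5) ^ 2 + (√5 * ((p ^ 2 + q ^ 2) / 5)) / 2 ≤ 3 / 4 := by
  have hS : (3 * p ^ 2 - 2 * p * q + 2 * q ^ 2) / 5 ≤ 9 / 10 := by
    nlinarith [mul_nonneg (sub_nonneg.2 h2) (sub_nonneg.2 h4),
      mul_nonneg (sub_nonneg.2 h1) (sub_nonneg.2 h3),
      mul_nonneg (sub_nonneg.2 h5) (sub_nonneg.2 h6), mul_nonneg (sub_nonneg.2 h1) (sub_nonneg.2 h2),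
      mul_nonneg (sub_nonneg.2 h3) (sub_nonneg.2 h4)]
  have hN1 : (p ^ 2 + p * q - q ^ 2) / 5 ≤ 9 / 20 := by nlinarith [sq_nonneg (p - 4 * q)]
  have hN2 : -(9 / 20) ≤ (p ^ 2 + p * q - q ^ 2) / 5 := by nlinarith [sq_nonneg p, sq_nonneg q]
  have hs5 : √5 ≤ 2.2361 := by
    rw [show (2.2361 : ℝ) = √(2.2361 ^ 2) by rw [Real.sqrt_sq (by norm_num)]]
    exact Real.sqrt_le_sqrt (by norm_num)
  refine ⟨by nlinarith, ?_⟩
  have hR : √5 * ((p ^ 2 + q ^ 2) / 5) ≤ 2.2361 * ((p ^ 2 + q ^ 2) / 5) :=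
    mul_le_mul_of_nonneg_right hs5 (by positivity)
  rcases le_total 0 ((p ^ 2 + p * q - q ^ 2) / 5) with h | h
  · have : ((p ^ 2 + p * q - q ^ 2) / 5) ^ 2 ≤ 9 / 20 * ((p ^ 2 + p * q - q ^ 2) / 5) := by
      nlinarith
    have h7 : p * q ≤ 3 / 2 := by
      nlinarith [mul_nonneg (sub_nonneg.2 h2) (sub_nonneg.2 h4),
        mul_nonneg (sub_nonneg.2 h1) (sub_nonneg.2 h3)]
    nlinarith [mul_nonneg (sub_nonneg.2 h1) (sub_nonneg.2 h2),
      mul_nonneg (sub_nonneg.2 h3) (sub_nonneg.2 h4)]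
  · have : ((p ^ 2 + p * q - q ^ 2) / 5) ^ 2 ≤ -(9 / 20) * ((p ^ 2 + p * q - q ^ 2) / 5) := by
      nlinarith
    nlinarith [mul_nonneg (sub_nonneg.2 h2) (sub_nonneg.2 h4),
      mul_nonneg (sub_nonneg.2 h1) (sub_nonneg.2 h3),
      mul_nonneg (sub_nonneg.2 h5) (sub_nonneg.2 h6), mul_nonneg (sub_nonneg.2 h1) (sub_nonneg.2 h2),
      mul_nonneg (sub_nonneg.2 h3) (sub_nonneg.2 h4)]

theorem hSgen (al be G C : ℝ) (h1 : G ^ 2 = G + 1) (h2 : G + C = 1) :
    (al + be * G) ^ 2 + (al + be * C) ^ 2 * G ^ 2 =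
      G * ((G - C) * (((2 * al + be) ^ 2 + (al - 2 * be) ^ 2) / 5)) := by
  have h3 : C = 1 - G := by linarith
  rw [h3]
  linear_combination (-(al ^ 2) - 2 * al * be * G - be ^ 2 * G * (1 - G)) * h1

theorem core (al be r : ℝ) (hr1 : 1 ≤ r) (hr2 : r ≤ Real.goldenRatio)
    (h1 : -1 ≤ 2 * al + be) (h2 : 2 * al + be ≤ 1) (h3 : -(3 / 2) ≤ al - 2 * be)
    (h4 : al - 2 * be ≤ 3 / 2) (h5 : -(3 / 2) ≤ al + 3 * be) (h6 : al + 3 * be ≤ 3 / 2) :
    ((al + be * Real.goldenRatio) * (al + be * Real.goldenConj)) ^ 2 +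
      ((al + be * Real.goldenRatio) ^ 2 / r + (al + be * Real.goldenConj) ^ 2 * r) / 2 ≤ 3 / 4 := by
  obtain ⟨i1, i2⟩ := ineq (2 * al + be) (al - 2 * be) h1 h2 h3 h4 (by linarith) (by linarith)
  have hg1 : 1 < Real.goldenRatio := Real.one_lt_goldenRatio
  have hg0 : 0 < Real.goldenRatio := Real.goldenRatio_pos
  have hadd := Real.goldenRatio_add_goldenConj
  have hsub := Real.goldenRatio_sub_goldenConj
  have hN : (al + be * Real.goldenRatio) * (al + be * Real.goldenConj) =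
      ((2 * al + be) ^ 2 + (2 * al + be) * (al - 2 * be) - (al - 2 * be) ^ 2) / 5 := by
    linear_combination (al * be) * hadd + be ^ 2 * gc
  have hS1 : (al + be * Real.goldenRatio) ^ 2 + (al + be * Real.goldenConj) ^ 2 =
      (3 * (2 * al + be) ^ 2 - 2 * (2 * al + be) * (al - 2 * be) + 2 * (al - 2 * be) ^ 2) / 5 := by
    linear_combination (2 * al * be + be ^ 2 ) * hadd + be ^ 2 * g2 + be ^ 2 * c2
  have hSg : (al + be * Real.goldenRatio) ^ 2 + (al + be * Real.goldenConj) ^ 2 *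
      Real.goldenRatio ^ 2 =
      Real.goldenRatio * (√5 * (((2 * al + be) ^ 2 + (al - 2 * be) ^ 2) / 5)) := by
    rw [← hsub]
    exact hSgen al be _ _ g2 hadd
  set A := (al + be * Real.goldenRatio) ^ 2 with hA
  set B := (al + be * Real.goldenConj) ^ 2 with hB
  have hA0 : 0 ≤ A := sq_nonneg _
  have hB0 : 0 ≤ B := sq_nonneg _
  rw [← hN] at i1 i2
  rw [← hS1] at i1
  set M := ((al + be * Real.goldenRatio) * (al + be * Real.goldenConj)) ^ 2 with hM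
  set E := √5 * (((2 * al + be) ^ 2 + (al - 2 * be) ^ 2) / 5) with hE
  have hdiv : A / r ≤ A * (1 + Real.goldenRatio - r) / Real.goldenRatio := by
    rw [div_le_div_iff₀ (by linarith) hg0]
    nlinarith [mul_nonneg hA0 (mul_nonneg (sub_nonneg.2 hr1) (sub_nonneg.2 hr2))]
  have hlin : A * (1 + Real.goldenRatio - r) / Real.goldenRatio + B * r ≤ 2 * (3 / 4 - M) := by
    rw [div_add' _ _ _ hg0.ne', div_le_iff₀ hg0]
    have j1 : (Real.goldenRatio - r) * (A + B) ≤ (Real.goldenRatio - r) * (2 * (3 / 4 - M)) :=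
      mul_le_mul_of_nonneg_left (by linarith) (by linarith)
    have j2 : (r - 1) * (Real.goldenRatio * E) ≤
        (r - 1) * (Real.goldenRatio * (2 * (3 / 4 - M))) :=
      mul_le_mul_of_nonneg_left (mul_le_mul_of_nonneg_left (by linarith) hg0.le) (by linarith)
    rw [← hSg] at j2
    have j3 : (Real.goldenRatio - 1) * (A * (1 + Real.goldenRatio - r) + B * r * Real.goldenRatio) ≤
        (Real.goldenRatio - 1) * (2 * (3 / 4 - M) * Real.goldenRatio) := by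
      have j4 := mul_le_mul_of_nonneg_left j1 hg0.le
      have j5 := add_le_add j4 j2
      refine le_trans (le_of_eq ?_) (j5.trans (le_of_eq ?_))
      · ring
      · ring
    exact le_of_mul_le_mul_left j3 (by linarith)
  linarith

theorem mid {z1 z2 y1 y2 : ℝ} (h1 : 0 < y1) (h2 : 0 < y2) (h : y1 * y2 < 1 / 2)
    (hr1 : 1 ≤ y1 / y2) (hr2 : y1 / y2 ≤ Real.goldenRatio) : Q z1 z2 y1 y2 := by
  have hsub := Real.goldenRatio_sub_goldenConj
  have hs : (0 : ℝ) < √5 := by positivity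
  obtain ⟨be, hbe⟩ : ∃ be : ℝ, be * √5 = z1 - z2 := ⟨(z1 - z2) / √5, div_mul_cancel₀ _ hs.ne'⟩
  obtain ⟨al, hal⟩ : ∃ al : ℝ, z1 = al + be * Real.goldenRatio :=
    ⟨z1 - be * Real.goldenRatio, by ring⟩
  have hz2 : z2 = al + be * Real.goldenConj := by
    rw [← hsub] at hbe
    linarith
  obtain ⟨i, j, k1, k2, k3, k4, k5, k6⟩ := corner al be
  have hc := core (al - i) (be - j) (y1 / y2) hr1 hr2 k1 k2 k3 k4 k5 k6
  refine ⟨⟨-i, -j⟩, ?_⟩
  have e1' : z1 + e1 (⟨-i, -j⟩ : O) = (al - i) + (be - j) * Real.goldenRatio := by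
    rw [hal]
    simp only [e1, ev]
    push_cast
    ring
  have e2' : z2 + e2 (⟨-i, -j⟩ : O) = (al - i) + (be - j) * Real.goldenConj := by
    rw [hz2]
    simp only [e2, ev]
    push_cast
    ring
  rw [e1', e2']
  set Z1 := (al - i) + (be - j) * Real.goldenRatio
  set Z2 := (al - i) + (be - j) * Real.goldenConj
  have hS0 : 0 ≤ Z1 ^ 2 / (y1 / y2) + Z2 ^ 2 * (y1 / y2) := by positivity
  have hT : 0 < y1 * y2 := by positivity
  have hid : (Z1 ^ 2 + y1 ^ 2) * (Z2 ^ 2 + y2 ^ 2) = (Z1 * Z2) ^ 2 +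
      y1 * y2 * (Z1 ^ 2 / (y1 / y2) + Z2 ^ 2 * (y1 / y2)) + (y1 * y2) ^ 2 := by
    field_simp
    ring
  rw [hid]
  nlinarith

theorem flr : FlrStmt := by
  intro z1 z2 y1 y2 h1 h2 h
  show Q z1 z2 y1 y2
  have hg1 : 1 < Real.goldenRatio := Real.one_lt_goldenRatio
  have hg0 : 0 < Real.goldenRatio := Real.goldenRatio_pos
  have hc0 : Real.goldenConj < 0 := Real.goldenConj_neg
  obtain ⟨n, hn1, hn2⟩ := exists_mem_Ico_zpow (x := y1 / y2 * Real.goldenRatio)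
    (y := Real.goldenRatio ^ 2) (by positivity) (by nlinarith)
  have hcn : |Real.goldenConj| = Real.goldenRatio⁻¹ := by
    rw [abs_of_neg hc0, eq_comm, inv_eq_of_mul_eq_one_right]
    linear_combination -gc
  have key : ∀ w1 w2 : ℝ, Q w1 w2 (Real.goldenRatio ^ (-n) * y1)
      (|Real.goldenConj| ^ (-n) * y2) := by
    intro w1 w2
    have a1 : 0 < Real.goldenRatio ^ (-n) * y1 := by positivity
    have a2 : 0 < |Real.goldenConj| ^ (-n) * y2 := by
      rw [hcn]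
      positivity
    have a3 : Real.goldenRatio ^ (-n) * y1 * (|Real.goldenConj| ^ (-n) * y2) < 1 / 2 := by
      rw [hcn]
      have : Real.goldenRatio ^ (-n) * y1 * ((Real.goldenRatio⁻¹) ^ (-n) * y2) = y1 * y2 := by
        rw [inv_zpow]
        have : Real.goldenRatio ^ (-n) ≠ 0 := zpow_ne_zero _ g_ne
        field_simp
      rwa [this]
    have a4 : Real.goldenRatio ^ (-n) * y1 / (|Real.goldenConj| ^ (-n) * y2) =
        ((Real.goldenRatio ^ 2) ^ n)⁻¹ * (y1 / y2) := by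
      rw [hcn, inv_zpow, zpow_neg, inv_inv, ← zpow_natCast, ← zpow_mul, mul_comm (((2 : ℕ) : ℤ)) n,
        zpow_mul, zpow_natCast]
      have : Real.goldenRatio ^ n ≠ 0 := zpow_ne_zero _ g_ne
      field_simp
    set r := Real.goldenRatio ^ (-n) * y1 / (|Real.goldenConj| ^ (-n) * y2) with hr
    have hG : 0 < (Real.goldenRatio ^ 2) ^ n := by positivity
    have b1 : 1 ≤ r * Real.goldenRatio := by
      rw [a4, mul_assoc, inv_mul_eq_div, le_div_iff₀ hG, one_mul]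
      exact hn1
    have b2 : r < Real.goldenRatio := by
      rw [zpow_add_one₀ (by positivity)] at hn2
      rw [a4, inv_mul_eq_div, div_lt_iff₀ hG]
      have b3 : y1 / y2 * Real.goldenRatio <
          (Real.goldenRatio * (Real.goldenRatio ^ 2) ^ n) * Real.goldenRatio := by
        calc _ < _ := hn2
          _ = _ := by ring
      exact lt_of_mul_lt_mul_right b3 hg0.le
    rcases le_total 1 r with hr1 | hr1
    · exact mid a1 a2 a3 hr1 b2.le
    · apply swap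
      refine mid a2 a1 (by rwa [mul_comm]) ?_ ?_
      · rw [← inv_div]
        exact (one_le_inv₀ (by positivity)).2 hr1
      · rw [← inv_div, inv_le_comm₀ (by positivity) hg0, inv_le_iff_one_le_mul₀ hg0]
        exact b1
  apply act (-n)
  have habs : ∀ z : ℝ, z ^ 2 = |z| ^ 2 := fun z => (sq_abs z).symm
  obtain ⟨x, hx⟩ := key (Real.goldenRatio ^ (-n) * z1) (Real.goldenConj ^ (-n) * z2)
  refine ⟨x, ?_⟩
  rw [habs (Real.goldenConj ^ (-n) * y2), abs_mul, abs_zpow, abs_of_pos h2]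
  exact hx

end Pool.Agent.Leo4.H11
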